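import Mathlib
import Pool.Agent.H.MP_d9b86d_al.C

set_option autoImplicit false

namespace Pool.Agent.Results.MP_d9b86d_al.NoIRS

open Filter MeasureTheory Pool.Agent.H.MP_d9b86d_al

/-- The topology on the set of subgroups induced from the product topology. -/
@[reducible] noncomputable def chabauty (Γ : Type) [Group Γ] : TopologicalSpace (Subgroup Γ) :=
  TopologicalSpace.induced (fun Δ : Subgroup Γ => (Δ : Set Γ).boolIndicator) Pi.topologicalSpace

/-- The conjugate subgroup. -/
def conj {Γ : Type} [Group Γ] (γ : Γ) (Δ : Subgroup Γ) : Subgroup Γ :=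
  Δ.map (MulAut.conj γ).toMonoidHom

/-- Boomerang subgroups. -/
def IsBoomerang {Γ : Type} [Group Γ] (Δ : Subgroup Γ) : Prop :=
  ∀ γ : Γ, ∃ n : ℕ → ℕ, Tendsto n atTop atTop ∧
    Tendsto (fun k => conj (γ ^ n k) Δ) atTop (@nhds _ (chabauty Γ) Δ)

/-- Invariant random subgroups. -/
def IsIRS {Γ : Type} [Group Γ] (μ : @Measure (Subgroup Γ) (@borel _ (chabauty Γ))) : Prop :=
  μ Set.univ = 1 ∧ ∀ (γ : Γ) (s : Set (Subgroup Γ)),
    @MeasurableSet _ (@borel _ (chabauty Γ)) s → μ (conj γ ⁻¹' s) = μ s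

theorem mem_conj {Γ : Type} [Group Γ] (γ h : Γ) (Δ : Subgroup Γ) :
    h ∈ conj γ Δ ↔ γ⁻¹ * h * γ ∈ Δ := by
  constructor
  · rintro ⟨b, hb, rfl⟩
    simpa [mul_assoc] using hb
  · exact fun hb => ⟨_, hb, by simp [mul_assoc]⟩

theorem clopen_mem {Γ : Type} [Group Γ] (h : Γ) : @IsClopen _ (chabauty Γ) {D | h ∈ D} := by
  letI := chabauty Γ
  have : Continuous fun D : Subgroup Γ => (D : Set Γ).boolIndicator h :=
    (continuous_apply h).comp (continuous_induced_dom
      (f := fun Δ : Subgroup Γ => (Δ : Set Γ).boolIndicator))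
  convert (isClopen_discrete {true}).preimage this using 1
  ext D
  exact Set.mem_iff_boolIndicator _ _

theorem clopen_aptr {X : Type} [TopologicalSpace X] (L : X → J → Prop)
    (hL : ∀ j, IsClopen {x | L x j}) (d : J) : IsClopen {x | APtr (L x) d} := by
  have h1 : ∀ e, IsClopen {x | Ptr (L x) e} := fun e =>
    ((hL _).inter (hL _)).union ((hL _).inter (hL _))
  have h2 : {x | APtr (L x) d} = {x | Ptr (L x) d} ∩ ⋂ e ∈ {e | e ≠ d}, {x | Ptr (L x) e}ᶜ := by
    ext x
    simp [APtr]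
  rw [h2]
  exact (h1 d).inter ((Set.toFinite _).isClopen_biInter fun e _ => (h1 e).compl)

theorem count {X : Type} [MeasurableSpace X] (μ : Measure X) (hμ : μ Set.univ = 1)
    (A B : J → Set X) (hA : ∀ d, MeasurableSet (A d)) (hB : ∀ d, MeasurableSet (B d))
    (hd : Pairwise (Function.onFun Disjoint A)) (e : ∀ d, μ (B d) = μ (A d)) (C : Set X)
    (hC : MeasurableSet C) (h1 : μ C = 1)
    (h2 : ∀ x ∈ C, ∃ d d', d ≠ d' ∧ x ∈ B d ∧ x ∈ B d') : False := by
  classical
  have a1 : ∑ d, μ (A d) ≤ 1 := by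
    rw [← tsum_fintype (L := SummationFilter.unconditional J), ← measure_iUnion hd hA, ← hμ]
    exact measure_mono (Set.subset_univ _)
  have a2 : ∑ d, μ (B d) = ∫⁻ x, ∑ d, (B d).indicator 1 x ∂μ := by
    rw [lintegral_finsetSum _ fun d _ => measurable_one.indicator (hB d)]
    exact Finset.sum_congr rfl fun d _ => (lintegral_indicator_one (hB d)).symm
  have a3 : ∫⁻ x, C.indicator (fun _ => 2) x ∂μ ≤ ∫⁻ x, ∑ d, (B d).indicator 1 x ∂μ := by
    refine lintegral_mono fun x => ?_
    by_cases hx : x ∈ C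
    · obtain ⟨d, d', hne, b1, b2⟩ := h2 x hx
      rw [Set.indicator_of_mem hx]
      refine le_trans ?_ (Finset.sum_le_sum_of_subset (Finset.subset_univ {d, d'}))
      rw [Finset.sum_pair hne, Set.indicator_of_mem b1, Set.indicator_of_mem b2]
      simp [one_add_one_eq_two]
    · simp [Set.indicator_of_notMem hx]
  rw [lintegral_indicator_const hC, h1, mul_one, ← a2, Finset.sum_congr rfl fun d _ => e d] at a3
  exact absurd (a3.trans a1) (by norm_num)

theorem result (ι : Type) [Countable ι] [Nontrivial ι] :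
    ∃ Δ : Subgroup (FreeGroup ι), (Δ : Set (FreeGroup ι)).Infinite ∧ IsBoomerang Δ ∧
      ¬ ∃ μ, IsIRS μ ∧
        μ (@closure _ (chabauty (FreeGroup ι)) (Set.range fun γ => conj γ Δ)) = 1 := by
  letI := chabauty (FreeGroup ι)
  letI : MeasurableSpace (Subgroup (FreeGroup ι)) := borel _
  haveI : BorelSpace (Subgroup (FreeGroup ι)) := ⟨rfl⟩
  obtain ⟨ρ, p, g, h1, h2, h3⟩ := group_model ι
  let S : V × J → Subgroup (FreeGroup ι) := fun q =>
    (MulAction.stabilizer (Equiv.Perm (V × J)) q).comap ρ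
  have hS : ∀ q h, h ∈ S q ↔ ρ h q = q := fun _ _ => Iff.rfl
  have hc : ∀ γ q, conj γ (S q) = S (ρ γ q) := by
    intro γ q
    ext h
    rw [mem_conj, hS, hS, map_mul, map_mul, map_inv, Equiv.Perm.mul_apply, Equiv.Perm.mul_apply,
      Equiv.Perm.inv_eq_iff_eq]
  refine ⟨S p, h1, fun γ => ?_, ?_⟩
  · obtain ⟨e, he⟩ := exists_surjective_nat (FreeGroup ι)
    choose n n1 n2 using fun k : ℕ => h2 (γ ^ (k + 1)) ((List.range k).map e)
    refine ⟨fun k => (k + 1) * n k, tendsto_atTop_mono (fun k => ?_) tendsto_id, ?_⟩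
    · have := n1 k
      simp only [id]
      nlinarith
    · rw [nhds_induced, tendsto_comap_iff, tendsto_pi_nhds]
      intro h
      obtain ⟨i, rfl⟩ := he h
      refine tendsto_const_nhds.congr' ?_
      filter_upwards [eventually_gt_atTop i] with k hk
      have := n2 k (e i) (List.mem_map.2 ⟨i, List.mem_range.2 hk, rfl⟩)
      rw [← hS, ← hS, ← hc, ← pow_mul] at this
      exact congrArg (fun P : Prop => ({_u : Unit | P} : Set Unit).boolIndicator ()) (propext this)
  · rintro ⟨μ, ⟨m1, m2⟩, m3⟩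
    have cA : ∀ d, IsClopen {H : Subgroup (FreeGroup ι) | APtr (fun j => g j ∈ H) d} :=
      clopen_aptr _ fun j => clopen_mem _
    have cB : ∀ d, IsClopen
        (conj (g d) ⁻¹' {H : Subgroup (FreeGroup ι) | APtr (fun j => g j ∈ H) d}) := fun d =>
      clopen_aptr (fun H j => g j ∈ conj (g d) H) (fun j => by
        simp only [mem_conj]
        exact clopen_mem _) d
    refine count μ m1 _ _ (fun d => (cA d).isOpen.measurableSet)
      (fun d => (cB d).isOpen.measurableSet)
      (fun d e hde => Set.disjoint_left.2 fun H a b => a.2 e hde.symm b.1)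
      (fun d => m2 _ _ (cA d).isOpen.measurableSet) _ isClosed_closure.measurableSet m3 ?_
    refine closure_minimal (t := {x | ∃ d d', d ≠ d' ∧ x ∈ _ ∧ x ∈ _}) ?_ ?_
    · rintro _ ⟨γ, rfl⟩
      obtain ⟨d, e, hde, a, b⟩ := h3 γ
      refine ⟨d, e, hde, ?_, ?_⟩
      · simpa only [Set.mem_preimage, hc, Set.mem_ofPred_eq, hS] using a
      · simpa only [Set.mem_preimage, hc, Set.mem_ofPred_eq, hS] using b
    · simp only [Set.ofPred_exists, Set.ofPred_and]
      refine isClosed_iUnion_of_finite fun d => isClosed_iUnion_of_finite fun e => ?_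
      exact isClosed_const.inter ((cB d).isClosed.inter (cB e).isClosed)

end Pool.Agent.Results.MP_d9b86d_al.NoIRS
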